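import Pool.Agent.W97.KE.Defs
import Pool.Agent.W75.V20.OMEGA

/-!
The real periods of `y² = x³ - 11x² - x`.
-/

set_option autoImplicit false

open MeasureTheory Set Filter

namespace Pool.Agent.W368.KE

noncomputable section

open Pool.Agent.W97.KE Pool.Agent.W97.V20
open Pool.Agent.W75.V20 (V X V_pos V_sq X_pos X_eq X_deriv X_inj X_surj V_int)

lemma psi4 (x : ℝ) : psi E4 x = 4 * x * (x ^ 2 - 11 * x - 1) := by
  simp only [psi, E4, WeierstrassCurve.b₂, WeierstrassCurve.b₄, WeierstrassCurve.b₆]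
  push_cast
  ring

lemma psi4X (s : ℝ) : psi E4 (X s) = 4 * (s * X s) ^ 2 := by
  rw [psi4]
  linear_combination 4 * X s * X_eq s

lemma setp : {x : ℝ | ∀ t, x ≤ t → 0 < psi E4 t} = X '' Ioi 0 := by
  ext x
  simp only [Set.mem_ofPred_eq, mem_image, mem_Ioi]
  constructor
  · intro h
    have hx : 0 < x := by
      by_contra hc
      push Not at hc
      have := h 0 hc
      rw [psi4] at this
      norm_num at this
    have h1 := h x le_rfl
    rw [psi4] at h1
    have h2 : 0 < x ^ 2 - 11 * x - 1 := by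
      by_contra hc
      push Not at hc
      nlinarith [mul_nonneg hx.le (neg_nonneg.mpr hc)]
    exact X_surj x hx h2
  · rintro ⟨s, hs, rfl⟩ t ht
    have hx := X_pos s
    have he := X_eq s
    have h1 : 0 < X s ^ 2 - 11 * X s - 1 := by
      have : X s ^ 2 - 11 * X s - 1 = s ^ 2 * X s := by linear_combination he
      rw [this]; positivity
    have h2 : 11 < X s := by
      by_contra hc
      push Not at hc
      nlinarith
    have h3 : 0 < t ^ 2 - 11 * t - 1 := by nlinarith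
    rw [psi4]
    have : 0 < t := by linarith
    positivity

lemma intp (s : ℝ) (hs : 0 < s) :
    |2 * s * X s / V s| • (Real.sqrt (psi E4 (X s)))⁻¹ = (V s)⁻¹ := by
  have hx := X_pos s
  have hv := V_pos s
  have e : (4 : ℝ) * (s * X s) ^ 2 = (2 * (s * X s)) ^ 2 := by ring
  rw [psi4X, e, Real.sqrt_sq (by positivity), abs_of_pos (by positivity), smul_eq_mul]
  field_simp

/-! ### The other half -/

def W (s : ℝ) : ℝ := Real.sqrt (s ^ 4 - 22 * s ^ 2 + 125)

def Y (s : ℝ) : ℝ := (W s + s ^ 2 - 11) / 2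

lemma Q_pos (s : ℝ) : 0 < s ^ 4 - 22 * s ^ 2 + 125 := by
  have : s ^ 4 - 22 * s ^ 2 + 125 = (s ^ 2 - 11) ^ 2 + 4 := by ring
  rw [this]; positivity

lemma W_pos (s : ℝ) : 0 < W s := Real.sqrt_pos.mpr (Q_pos s)

lemma W_sq (s : ℝ) : W s ^ 2 = s ^ 4 - 22 * s ^ 2 + 125 := Real.sq_sqrt (Q_pos s).le

lemma Y_pos (s : ℝ) : 0 < Y s := by
  unfold Y
  have h1 : 11 - s ^ 2 < W s := by
    unfold W
    apply Real.lt_sqrt_of_sq_lt
    nlinarith
  linarith

lemma Y_eq (s : ℝ) : Y s ^ 2 = (s ^ 2 - 11) * Y s + 1 := by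
  unfold Y
  have := W_sq s
  nlinarith

lemma W_deriv (s : ℝ) : HasDerivAt W (2 * s * (s ^ 2 - 11) / W s) s := by
  have h : HasDerivAt (fun s : ℝ => s ^ 4 - 22 * s ^ 2 + 125) (4 * s ^ 3 - 44 * s) s := by
    have h1 := ((hasDerivAt_pow 4 s).sub ((hasDerivAt_pow 2 s).const_mul 22)).add_const 125
    refine HasDerivAt.congr_deriv h1 ?_
    norm_num
    ring
  have h2 := h.sqrt (Q_pos s).ne'
  have hv := W_pos s
  refine HasDerivAt.congr_deriv h2 ?_
  show (4 * s ^ 3 - 44 * s) / (2 * W s) = _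
  field_simp
  ring

lemma Y_deriv (s : ℝ) : HasDerivAt Y (2 * s * Y s / W s) s := by
  have h := (((W_deriv s).add (hasDerivAt_pow 2 s)).sub_const 11).div_const 2
  have hv := W_pos s
  refine HasDerivAt.congr_deriv h ?_
  unfold Y
  field_simp
  norm_num
  ring

lemma Y_inj {s t : ℝ} (hs : 0 < s) (ht : 0 < t) (h : Y s = Y t) : s = t := by
  have h1 := Y_eq s
  have h2 := Y_eq t
  rw [← h] at h2
  have hx := Y_pos s
  have h3 : (s ^ 2 - t ^ 2) * Y s = 0 := by linarith
  have h4 : s ^ 2 - t ^ 2 = 0 := by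
    rcases mul_eq_zero.mp h3 with h | h
    · exact h
    · exact absurd h hx.ne'
  nlinarith

lemma Y_surj (y : ℝ) (hy : 0 < y) (h : 0 < y ^ 2 + 11 * y - 1) : ∃ s, 0 < s ∧ Y s = y := by
  refine ⟨Real.sqrt ((y ^ 2 + 11 * y - 1) / y), Real.sqrt_pos.mpr (div_pos h hy), ?_⟩
  have e1 : Real.sqrt ((y ^ 2 + 11 * y - 1) / y) ^ 2 = (y ^ 2 + 11 * y - 1) / y :=
    Real.sq_sqrt (div_pos h hy).le
  have e2 : W (Real.sqrt ((y ^ 2 + 11 * y - 1) / y)) = y + 1 / y := by
    unfold W
    rw [Real.sqrt_eq_iff_mul_self_eq_of_pos (by positivity)]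
    have : Real.sqrt ((y ^ 2 + 11 * y - 1) / y) ^ 4 = ((y ^ 2 + 11 * y - 1) / y) ^ 2 := by
      calc _ = (Real.sqrt ((y ^ 2 + 11 * y - 1) / y) ^ 2) ^ 2 := by ring
        _ = _ := by rw [e1]
    rw [this, e1]
    field_simp
    ring
  unfold Y
  rw [e2, e1]
  field_simp
  ring

lemma psi4Y (s : ℝ) : psi E4 (-Y s) = -(4 * (s * Y s) ^ 2) := by
  rw [psi4]
  linear_combination -4 * Y s * Y_eq s

lemma setm : {x : ℝ | ∀ t, t ≤ x → psi E4 t < 0} = (fun s => -Y s) '' Ioi 0 := by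
  ext x
  simp only [Set.mem_ofPred_eq, mem_image, mem_Ioi]
  constructor
  · intro h
    have hx : x < 0 := by
      by_contra hc
      push Not at hc
      have := h 0 hc
      rw [psi4] at this
      norm_num at this
    have h1 := h x le_rfl
    rw [psi4] at h1
    have h2 : 0 < x ^ 2 - 11 * x - 1 := by
      by_contra hc
      push Not at hc
      nlinarith [mul_nonneg (neg_nonneg.mpr hx.le) (neg_nonneg.mpr hc)]
    obtain ⟨s, hs, h3⟩ := Y_surj (-x) (by linarith) (by nlinarith)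
    exact ⟨s, hs, by rw [h3]; ring⟩
  · rintro ⟨s, hs, rfl⟩ t ht
    have hx := Y_pos s
    have he := Y_eq s
    have h1 : 0 < Y s ^ 2 + 11 * Y s - 1 := by
      have : Y s ^ 2 + 11 * Y s - 1 = s ^ 2 * Y s := by linear_combination he
      rw [this]; positivity
    have h3 : 0 < t ^ 2 - 11 * t - 1 := by nlinarith
    rw [psi4]
    have : t < 0 := by linarith
    have h4 : 4 * t * (t ^ 2 - 11 * t - 1) = -(4 * (-t) * (t ^ 2 - 11 * t - 1)) := by ring
    rw [h4]
    have h5 : 0 < -t := by linarith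
    have : 0 < 4 * (-t) * (t ^ 2 - 11 * t - 1) := by positivity
    linarith

lemma intm (s : ℝ) (hs : 0 < s) :
    |-(2 * s * Y s / W s)| • (Real.sqrt (-psi E4 (-Y s)))⁻¹ = (W s)⁻¹ := by
  have hx := Y_pos s
  have hv := W_pos s
  have e : -(-((4 : ℝ) * (s * Y s) ^ 2)) = (2 * (s * Y s)) ^ 2 := by ring
  rw [psi4Y, e, Real.sqrt_sq (by positivity), abs_neg, abs_of_pos (by positivity), smul_eq_mul]
  field_simp

lemma W_int : IntegrableOn (fun s : ℝ => (W s)⁻¹) (Ioi 0) := by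
  have h := (integrable_inv_one_add_sq.integrableOn (s := Ioi (0 : ℝ))).const_mul 9
  refine Integrable.mono' h ?_ ?_
  · have hc : Continuous fun s : ℝ => (W s)⁻¹ := by
      unfold W
      apply Continuous.inv₀ (by fun_prop)
      intro s
      exact (W_pos s).ne'
    exact hc.aestronglyMeasurable
  · refine Filter.Eventually.of_forall fun s => ?_
    rw [Real.norm_eq_abs, abs_of_pos (inv_pos.mpr (W_pos s))]
    have h1 : (1 + s ^ 2) / 9 ≤ W s := by
      unfold W
      apply Real.le_sqrt_of_sq_le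
      nlinarith [sq_nonneg (s ^ 2 - 11), sq_nonneg (s ^ 2 - 12)]
    have h2 : 0 < (1 + s ^ 2) / 9 := by positivity
    calc (W s)⁻¹ ≤ ((1 + s ^ 2) / 9)⁻¹ := inv_anti₀ h2 h1
      _ = 9 * (1 + s ^ 2)⁻¹ := by field_simp

lemma W_int_pos : 0 < ∫ s in Ioi (0 : ℝ), (W s)⁻¹ := by
  rw [setIntegral_pos_iff_support_of_nonneg_ae]
  · have : Function.support (fun s : ℝ => (W s)⁻¹) = univ := by
      ext s
      simp [(W_pos s).ne']
    rw [this, univ_inter, Real.volume_Ioi]
    exact ENNReal.zero_lt_top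
  · exact Filter.Eventually.of_forall fun s => (inv_pos.2 (W_pos s)).le
  · exact W_int

theorem s_omp : MeasureTheory.IntegrableOn (fun s : ℝ => (Real.sqrt (s ^ 4 + 22 * s ^ 2 + 125))⁻¹)
    (Set.Ioi 0) ∧
    Omp E4 = 2 * ∫ s in Set.Ioi (0 : ℝ), (Real.sqrt (s ^ 4 + 22 * s ^ 2 + 125))⁻¹ ∧
    0 < Omm E4 := by
  refine ⟨V_int, ?_, ?_⟩
  · unfold Omp
    rw [setp, integral_image_eq_integral_abs_deriv_smul measurableSet_Ioi
      (fun s _ => (X_deriv s).hasDerivWithinAt) (fun s hs t ht h => X_inj hs ht h)]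
    congr 1
    exact setIntegral_congr_fun measurableSet_Ioi fun s hs => intp s hs
  · unfold Omm
    have hd : ∀ s ∈ Ioi (0 : ℝ), HasDerivWithinAt (fun s => -Y s) (-(2 * s * Y s / W s)) (Ioi 0) s :=
      fun s _ => (Y_deriv s).neg.hasDerivWithinAt
    have hinj : InjOn (fun s => -Y s) (Ioi 0) := fun s hs t ht h => Y_inj hs ht (neg_injective h)
    rw [setm, integral_image_eq_integral_abs_deriv_smul measurableSet_Ioi hd hinj]
    rw [setIntegral_congr_fun measurableSet_Ioi fun s hs => intm s hs]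
    exact mul_pos two_pos W_int_pos

end

end Pool.Agent.W368.KE
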